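import Pool.Agent.Helper53.AE.GoalsA

/-!
# Project AE (MP_8130e1_an), packet GHX: good homomorphisms of finite-dimensional algebras
-/

set_option autoImplicit false

open scoped ComplexOrder Topology
open Filter TopologicalSpace

namespace Pool.Agent.Helper49.AE

open Pool.Agent.Helper53.AE

section lemmas

variable {C : Type} [CStarAlgebra C]

/-- a nonzero positive multiple -/
theorem pos_of_mul_star {a q : C} (hq : q * q = q) (hqs : star q = q) (hq0 : q ≠ 0) (ha : a ≠ 0)
    {l : ℂ} (h : a * star a = l • q) : ∃ t : ℝ, 0 < t ∧ l = (t : ℂ) := by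
  have h1 : star l = l := by
    have h2 : star (a * star a) = a * star a := by rw [star_mul, star_star]
    rw [h, star_smul, hqs] at h2
    have h3 : (star l - l) • q = 0 := by rw [sub_smul, h2, sub_self]
    rcases smul_eq_zero.1 h3 with h4 | h4
    · exact sub_eq_zero.1 h4
    · exact absurd h4 hq0
  obtain ⟨t, ht⟩ := (Complex.conj_eq_iff_real).1 h1
  refine ⟨t, ?_, ht⟩
  have h5 : a * star a = t • q := by
    rw [h, ht]
    rfl
  have h6 : t ∈ spectrum ℝ (star (star a) * star a) := by
    rw [star_star, h5, spectrum.mem_iff]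
    intro h7
    apply hq0
    have h8 : (algebraMap ℝ C t - t • q) * q = 0 := by
      rw [sub_mul, smul_mul_assoc, hq, Algebra.algebraMap_eq_smul_one, smul_mul_assoc, one_mul,
        sub_self]
    exact (h7.mul_right_eq_zero).1 h8
  have h9 : 0 ≤ t := spectrum_star_mul_self_nonneg t h6
  rcases h9.lt_or_eq with h10 | h10
  · exact h10
  · exfalso
    rw [← h10, zero_smul] at h5
    exact ha (CStarRing.mul_star_self_eq_zero_iff a |>.1 h5)

theorem corner {m : ℕ} {b : Fin m → Fin m} {e : Fin m → Fin m → C} (hMU : MUs b e) (x : Fin m)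
    (a : C) (ha : a ∈ spn e) : ∃ l : ℂ, e x x * a * e x x = l • e x x := by
  induction ha using Submodule.span_induction with
  | mem a ha =>
    obtain ⟨⟨y, z⟩, rfl⟩ := ha
    show ∃ l : ℂ, e x x * e y z * e x x = l • e x x
    by_cases hxy : x = y
    · subst hxy
      by_cases hb : b x = b z
      · rw [hMU.mul x x z rfl hb]
        by_cases hxz : z = x
        · subst hxz
          exact ⟨1, by rw [hMU.mul z z z rfl rfl, one_smul]⟩
        · exact ⟨0, by rw [hMU.orth x z x x hxz, zero_smul]⟩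
      · exact ⟨0, by rw [hMU.zero x z hb, mul_zero, zero_mul, zero_smul]⟩
    · exact ⟨0, by rw [hMU.orth x x y z hxy, zero_mul, zero_smul]⟩
  | zero => exact ⟨0, by rw [mul_zero, zero_mul, zero_smul]⟩
  | add a c _ _ ha hc =>
    obtain ⟨l, hl⟩ := ha
    obtain ⟨k, hk⟩ := hc
    exact ⟨l + k, by rw [mul_add, add_mul, hl, hk, add_smul]⟩
  | smul k a _ ha =>
    obtain ⟨l, hl⟩ := ha
    exact ⟨k * l, by rw [mul_smul_comm, smul_mul_assoc, hl, smul_smul]⟩

/-- the corner algebra -/
def cor (F : NonUnitalStarSubalgebra ℂ C) (P : C) (hPs : star P = P) :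
    NonUnitalStarSubalgebra ℂ C where
  carrier := {a | a ∈ F ∧ P * a = a ∧ a * P = a}
  add_mem' := by
    rintro a c ⟨h1, h2, h3⟩ ⟨h4, h5, h6⟩
    exact ⟨F.add_mem h1 h4, by rw [mul_add, h2, h5], by rw [add_mul, h3, h6]⟩
  zero_mem' := ⟨F.zero_mem, mul_zero _, zero_mul _⟩
  mul_mem' := by
    rintro a c ⟨h1, h2, h3⟩ ⟨h4, h5, h6⟩
    exact ⟨F.mul_mem h1 h4, by rw [← mul_assoc, h2], by rw [mul_assoc, h6]⟩
  smul_mem' := by
    rintro k a ⟨h1, h2, h3⟩
    exact ⟨F.smul_mem k h1, by rw [mul_smul_comm, h2], by rw [smul_mul_assoc, h3]⟩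
  star_mem' := by
    rintro a ⟨h1, h2, h3⟩
    refine ⟨star_mem h1, ?_, ?_⟩
    · have h4 := congrArg star h3
      rwa [star_mul, hPs] at h4
    · have h4 := congrArg star h2
      rwa [star_mul, hPs] at h4

theorem cor_fin (F : NonUnitalStarSubalgebra ℂ C) (hF : FiniteDimensional ℂ F) (P : C)
    (hPs : star P = P) : FiniteDimensional ℂ (cor F P hPs) := by
  let φ : (cor F P hPs) →ₗ[ℂ] F :=
    { toFun := fun a => ⟨a.1, a.2.1⟩
      map_add' := fun a c => rfl
      map_smul' := fun k a => rfl }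
  refine FiniteDimensional.of_injective φ fun a c h => ?_
  have h1 := congrArg (fun z : F => (z : C)) h
  exact Subtype.ext h1

end lemmas

theorem t (hMPR : S_MPR) (hMU1 : S_MU1) (hHOM : S_HOM) (hCUN : S_CUN) (hISM : S_ISM) :
    S_GHX := by
  intro C M _ _ s₁ s₂ hCz h1ne F hfd h1F
  obtain ⟨m, b, e, hMU, hsp, hun⟩ := hMU1 C F hfd
  have he1 : ∑ x, e x x = 1 := by
    have h1 := (hun 1 h1F).1
    rwa [mul_one] at h1
  have hm : 0 < m := by
    rcases Nat.eq_zero_or_pos m with h | h
    · subst h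
      rw [Finset.univ_eq_empty, Finset.sum_empty] at he1
      exact absurd he1.symm h1ne
    · exact h
  obtain ⟨r, hr, hrs⟩ := (hCUN M s₁ s₂ hCz).2 m hm
  have hemem : ∀ x y, e x y ∈ F := fun x y =>
    (hsp _).2 (Submodule.subset_span ⟨(x, y), rfl⟩)
  obtain ⟨σ, hσ⟩ := hHOM C M F m b e (fun x y => if b x = b y then r x * star (r y) else 0)
    hMU hsp (fun x y h => if_neg h)
    (by
      intro x y
      by_cases h : b x = b y
      · rw [if_pos h, if_pos h.symm, star_mul, star_star]
      · rw [if_neg h, if_neg (fun h' => h h'.symm), star_zero])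
    (by
      intro x y z h1 h2
      rw [if_pos h1, if_pos h2, if_pos (h1.trans h2), mul_assoc, ← mul_assoc (star (r y)), hr y y,
        if_pos rfl, one_mul])
    (by
      intro x y z w hyz
      by_cases h1 : b x = b y
      · by_cases h2 : b z = b w
        · rw [if_pos h1, if_pos h2, mul_assoc, ← mul_assoc (star (r y)), hr y z, if_neg hyz,
            zero_mul, mul_zero]
        · rw [if_neg h2, mul_zero]
      · rw [if_neg h1, zero_mul])
  have hσd : ∀ x, σ ⟨e x x, hemem x x⟩ = r x * star (r x) := by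
    intro x
    rw [hσ x x (hemem x x), if_pos rfl]
  refine ⟨σ, ?_, ?_⟩
  · intro h
    have h1 : (⟨1, h⟩ : F) = ∑ x, ⟨e x x, hemem x x⟩ := by
      apply Subtype.ext
      rw [AddSubmonoidClass.coe_finsetSum]
      exact he1.symm
    rw [h1, map_sum, ← hrs]
    exact Finset.sum_congr rfl fun x _ => hσd x
  · intro p hps hpp hp0
    have hPs : star (p : C) = (p : C) := congrArg (fun z : F => (z : C)) hps
    have hPP : (p : C) * (p : C) = (p : C) := congrArg (fun z : F => (z : C)) hpp
    have hP0 : (p : C) ≠ 0 := fun h => hp0 (Subtype.ext h)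
    obtain ⟨n, q, hq, horth, hunG, hmin⟩ := hMPR C (cor F p hPs) (cor_fin F hfd p hPs)
    have hqF : ∀ i, q i ∈ F := fun i => (hq i).1.1
    have hPq : ∀ i, (p : C) * q i = q i := fun i => (hq i).1.2.1
    have hqP : ∀ i, q i * (p : C) = q i := fun i => (hq i).1.2.2
    have hsum : ∑ i, q i = (p : C) := by
      have h1 := (hunG (p : C) ⟨p.2, hPP, hPP⟩).1
      rw [Finset.sum_mul] at h1
      rw [← h1]
      exact Finset.sum_congr rfl fun i _ => (hqP i).symm
    have hn : 0 < n := by
      rcases Nat.eq_zero_or_pos n with h | h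
      · subst h
        rw [Finset.univ_eq_empty, Finset.sum_empty] at hsum
        exact absurd hsum.symm hP0
      · exact h
    have hmin' : ∀ i, ∀ a ∈ F, ∃ l : ℂ, q i * a * q i = l • q i := by
      intro i a ha
      obtain ⟨l, hl⟩ := hmin i ((p : C) * a * (p : C))
        ⟨F.mul_mem (F.mul_mem p.2 ha) p.2, by rw [← mul_assoc, ← mul_assoc, hPP],
          by rw [mul_assoc, hPP]⟩
      refine ⟨l, ?_⟩
      rw [← hl, ← mul_assoc, ← mul_assoc, hqP i, mul_assoc (q i * a), hPq i]
    have hkey : ∀ i, ∃ (v : C) (x : Fin m), v ∈ F ∧ v * star v = q i ∧ star v * v = e x x ∧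
        v * e x x = v ∧ q i * v = v := by
      intro i
      have hqi := (hq i).2.1
      have h1 : ∃ x, q i * e x x ≠ 0 := by
        by_contra hcon
        have h2 : ∀ x, q i * e x x = 0 := by
          intro x
          by_contra h3
          exact hcon ⟨x, h3⟩
        apply (hq i).2.2
        rw [← mul_one (q i), ← he1, Finset.mul_sum]
        exact Finset.sum_eq_zero fun x _ => h2 x
      obtain ⟨x, hx⟩ := h1
      have hexx : e x x * e x x = e x x := hMU.mul x x x rfl rfl
      have hexs : star (e x x) = e x x := hMU.star x x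
      obtain ⟨l, hl⟩ := hmin' i (e x x) (hemem x x)
      have h3 : (q i * e x x) * star (q i * e x x) = l • q i := by
        rw [star_mul, hexs, hqi.1, mul_assoc, ← mul_assoc (e x x), hexx, ← mul_assoc, hl]
      obtain ⟨t, ht, hlt⟩ := pos_of_mul_star hqi.2 hqi.1 (hq i).2.2 hx h3
      have hsq : ((Real.sqrt t : ℝ) : ℂ) ≠ 0 := by
        rw [Ne, Complex.ofReal_eq_zero]
        exact (Real.sqrt_pos.2 ht).ne'
      have hsq2 : ((Real.sqrt t : ℝ) : ℂ) * ((Real.sqrt t : ℝ) : ℂ) = l := by
        rw [hlt, ← Complex.ofReal_mul, Real.mul_self_sqrt ht.le]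
      have hcs : star ((((Real.sqrt t : ℝ) : ℂ))⁻¹) = (((Real.sqrt t : ℝ) : ℂ))⁻¹ := by
        rw [star_inv₀]
        congr 1
        exact Complex.conj_ofReal _
      have hvF : (((Real.sqrt t : ℝ) : ℂ))⁻¹ • (q i * e x x) ∈ F :=
        F.smul_mem _ (F.mul_mem (hqF i) (hemem x x))
      have hvv : ((((Real.sqrt t : ℝ) : ℂ))⁻¹ • (q i * e x x)) *
          star ((((Real.sqrt t : ℝ) : ℂ))⁻¹ • (q i * e x x)) = q i := by
        rw [star_smul, hcs, smul_mul_smul_comm, h3, smul_smul, ← mul_inv, hsq2, inv_mul_cancel₀,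
          one_smul]
        rw [hlt, Ne, Complex.ofReal_eq_zero]
        exact ht.ne'
      have hve : ((((Real.sqrt t : ℝ) : ℂ))⁻¹ • (q i * e x x)) * e x x =
          (((Real.sqrt t : ℝ) : ℂ))⁻¹ • (q i * e x x) := by
        rw [smul_mul_assoc, mul_assoc, hexx]
      have hqv : q i * ((((Real.sqrt t : ℝ) : ℂ))⁻¹ • (q i * e x x)) =
          (((Real.sqrt t : ℝ) : ℂ))⁻¹ • (q i * e x x) := by
        rw [mul_smul_comm, ← mul_assoc, hqi.2]
      generalize ((((Real.sqrt t : ℝ) : ℂ))⁻¹ • (q i * e x x)) = v at hvF hvv hve hqv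
      refine ⟨v, x, hvF, hvv, ?_, hve, hqv⟩
      have hsve : e x x * star v = star v := by
        have h4 := congrArg star hve
        rwa [star_mul, hexs] at h4
      have hvv2 : star v * v ∈ F := mul_mem (star_mem hvF) hvF
      obtain ⟨k, hk⟩ := corner hMU x (star v * v) ((hsp _).1 hvv2)
      have h5 : star v * v = k • e x x := by
        rw [← hk, ← mul_assoc, hsve, mul_assoc, hve]
      have h6 : (star v * v) * (star v * v) = star v * v := by
        rw [mul_assoc, ← mul_assoc v, hvv, hqv]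
      have h7 : star v * v ≠ 0 := by
        intro h8
        have h9 := (CStarRing.star_mul_self_eq_zero_iff v).1 h8
        rw [h9, zero_mul] at hvv
        exact (hq i).2.2 hvv.symm
      have h8 : k * k = k := by
        rw [h5, smul_mul_smul_comm, hexx] at h6
        have h9 : (k * k - k) • e x x = 0 := by rw [sub_smul, h6, sub_self]
        rcases smul_eq_zero.1 h9 with h10 | h10
        · exact sub_eq_zero.1 h10
        · exact absurd h10 (hMU.ne x)
      have h9 : k ≠ 0 := by
        intro h10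
        rw [h10, zero_smul] at h5
        exact h7 h5
      have h10 : k = 1 := mul_left_cancel₀ h9 (by rw [h8, mul_one])
      rw [h5, h10, one_smul]
    choose v x hvF hvv hsv hve hqv using hkey
    have hτ1 : ∀ i, star (σ ⟨v i, hvF i⟩ * r (x i)) * (σ ⟨v i, hvF i⟩ * r (x i)) = 1 := by
      intro i
      have h1 : star (σ ⟨v i, hvF i⟩) * σ ⟨v i, hvF i⟩ = r (x i) * star (r (x i)) := by
        rw [← map_star, ← map_mul, ← hσd (x i)]
        congr 1
        exact Subtype.ext (hsv i)
      rw [star_mul, mul_assoc, ← mul_assoc (star (σ ⟨v i, hvF i⟩)), h1, mul_assoc,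
        hr (x i) (x i), if_pos rfl, mul_one, hr (x i) (x i), if_pos rfl]
    have hτ0 : ∀ i j, i ≠ j →
        star (σ ⟨v i, hvF i⟩ * r (x i)) * (σ ⟨v j, hvF j⟩ * r (x j)) = 0 := by
      intro i j hij
      have h1 : star (v i) * v j = 0 := by
        have h2 : star (v i) * q i = star (v i) := by
          have h3 := congrArg star (hqv i)
          rwa [star_mul, (hq i).2.1.1] at h3
        rw [← h2, ← hqv j, mul_assoc, ← mul_assoc (q i), horth i j hij, zero_mul, mul_zero]
      have h4 : star (σ ⟨v i, hvF i⟩) * σ ⟨v j, hvF j⟩ = 0 := by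
        rw [← map_star, ← map_mul, ← map_zero σ]
        congr 1
        exact Subtype.ext h1
      rw [star_mul, mul_assoc, ← mul_assoc (star (σ ⟨v i, hvF i⟩)), h4, zero_mul, mul_zero]
    have hτq : ∀ i, (σ ⟨v i, hvF i⟩ * r (x i)) * star (σ ⟨v i, hvF i⟩ * r (x i)) =
        σ ⟨q i, hqF i⟩ := by
      intro i
      rw [star_mul, mul_assoc, ← mul_assoc (r (x i)), ← hσd (x i), ← mul_assoc, ← map_star,
        ← map_mul, ← map_mul]
      congr 1
      apply Subtype.ext
      show v i * e (x i) (x i) * star (v i) = q i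
      rw [hve i, hvv i]
    have hres := hISM M s₁ s₂ hCz n (fun i => σ ⟨v i, hvF i⟩ * r (x i)) hn (by
      intro i j
      by_cases hij : i = j
      · subst hij
        rw [if_pos rfl]
        exact hτ1 i
      · rw [if_neg hij]
        exact hτ0 i j hij)
    have hfin : ∑ i, (σ ⟨v i, hvF i⟩ * r (x i)) * star (σ ⟨v i, hvF i⟩ * r (x i)) = σ p := by
      rw [Finset.sum_congr rfl fun i _ => hτq i, ← map_sum]
      congr 1
      apply Subtype.ext
      rw [AddSubmonoidClass.coe_finsetSum]
      exact hsum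
    rw [← hfin]
    exact hres

end Pool.Agent.Helper49.AE
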